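import Mathlib
import Pool.Agent.Lib.MP_2adc98_lc.XMain

/-!
# MP_2adc98_lc: absolute factorization in `Õ(d³)` steps in small characteristic, output over `K`

One program `A` (independent of the field, of `d` and of `p`) computes the absolute factorization
of every polynomial `f` in two variables of total degree `d` over every perfect field `K` of
characteristic `p`, `0 < p < d²`, with output over `K`: a list of triples `(q, g, m)`, `q ∈ K[z]`
monic and squarefree, `g ∈ K[z][x, y]` with `deg_z g < deg q`, `m ≥ 1`; the irreducible factors of
`f` over the algebraic closure are, up to constants, the `g(x, y, α)`, `α` a root of `q`, each with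
the multiplicity `m`.  It uses at most `C d³` random elements and `C d³ (log d + 1)^C` elementary
steps, and the output is correct for at least two thirds of the choices of the random elements.

* If `K` has at least `128 d²` elements, the random elements are taken from any set `S ⊆ K` with
  at least `128 d²` elements, and the program works in `K`.
* If `K` is finite, the random elements may be taken from any extension `L` of `K` with
  `128 d² ≤ |L| ≤ (128 d²)²` elements, and the program works in `L`; it also gets the numbers
  `|K|` and `|L|`.  The printed coefficients are elements of `K`.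
* If `|K| < 128 d²`, there is such an `L` of degree at most `C (log d + 1)`.
-/

set_option autoImplicit false

namespace Pool.Agent.Results.MP_2adc98_lc.AbsFactorizationK

open Pool.Agent.AbsIrr

theorem result : ∃ (A : POut Prt InpK) (C : ℕ), ∀ (K : Type) [Field K] [PerfectField K]
    (p d : ℕ) [CharP K p], 0 < p → p < d ^ 2 →
    (∀ f : MvPolynomial (Fin 2) K, f.totalDegree = d →
      (∀ S : Finset K, 128 * d ^ 2 ≤ S.card →
        FactorsK A p d 0 0 f K S (C * d ^ 3) (C * d ^ 3 * (Nat.log 2 d + 1) ^ C)) ∧
      ∀ [Fintype K] (L : Type) [Field L] [Fintype L] [Algebra K L],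
        128 * d ^ 2 ≤ Fintype.card L → Fintype.card L ≤ (128 * d ^ 2) ^ 2 →
        FactorsK A p d (Fintype.card K) (Fintype.card L) f L Finset.univ (C * d ^ 3)
          (C * d ^ 3 * (Nat.log 2 d + 1) ^ C)) ∧
    ∀ [Fintype K], Fintype.card K < 128 * d ^ 2 →
      ∃ (L : Type) (_ : Field L) (_ : Fintype L) (_ : Algebra K L),
        128 * d ^ 2 ≤ Fintype.card L ∧ Fintype.card L ≤ (128 * d ^ 2) ^ 2 ∧
          Module.finrank K L ≤ C * (Nat.log 2 d + 1) :=
  main_fullK

end Pool.Agent.Results.MP_2adc98_lc.AbsFactorizationK
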