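import Mathlib
import Pool.Agent.Lib.MP_2adc98_lc.Main

/-!
# MP_2adc98_lc: testing absolute irreducibility in `Õ(d³)` steps in small characteristic

One program `A` of the programming language of `Lang.lean` (independent of the field, of `d` and of
`p`) tests whether a polynomial `f` in two variables of total degree `d` over a field `K` of
characteristic `p`, `0 < p < d²`, is absolutely irreducible.  The program works over any finite
extension `L` of `K` (for instance `L = K`), with random elements from any finite set `S` in `L`
with at least `C d²` elements; it uses `C d³` random elements and at most `C d³ (log d + 1)^C`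
elementary steps, never accepts a polynomial which is not absolutely irreducible and accepts an
absolutely irreducible polynomial for at least two thirds of the choices of the random elements.
Moreover there is always such an `L` of degree `O(log d)`.
-/

set_option autoImplicit false

namespace Pool.Agent.Results.MP_2adc98_lc.AbsIrredTest

open Pool.Agent.AbsIrr

theorem result : ∃ (A : Prog Inp .nat) (C C' : ℕ), ∀ (K : Type) [Field K] (p d : ℕ) [CharP K p],
    0 < p → p < d ^ 2 →
    (∀ (L : Type) [Field L] [Algebra K L] [FiniteDimensional K L] (S : Finset L),
      C * d ^ 2 ≤ S.card → ∀ f : MvPolynomial (Fin 2) K, f.totalDegree = d →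
        Tests A p d f L S (C * d ^ 3) (C * d ^ 3 * (Nat.log 2 d + 1) ^ C)) ∧
    ∃ (L : Type) (_ : Field L) (_ : Algebra K L) (_ : FiniteDimensional K L) (S : Finset L),
      C * d ^ 2 ≤ S.card ∧ Module.finrank K L ≤ C' * (Nat.log 2 d + 1) :=
  main

end Pool.Agent.Results.MP_2adc98_lc.AbsIrredTest
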